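import Mathlib
import Pool.Agent.H1.Day

set_option autoImplicit false

namespace Pool.Agent.Results.MP_66a881_co.Day

theorem result :
    ∀ h n : ℕ, 1 ≤ h → 2 * h ^ 3 + 2 * h ^ 2 + 8 * h + 1 ≤ n →
      ∃ a : Fin 3 → ZMod n, Function.Injective a ∧
        Set.InjOn (fun l : Fin 3 → ℤ => ∑ i, l i • a i) {l | ∑ i, |l i| = (h : ℤ)} :=
  fun h n hh hn => Pool.Agent.H1.Day.main h n hh hn

end Pool.Agent.Results.MP_66a881_co.Day
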